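import Mathlib

/-!
# The wheel `W4 = K_{1,2,2}` has `δ_VC < δ_B`
-/

namespace Pool.Agent.Results.MP_0aef5d_co.WheelFour

open SimpleGraph Finset

/-! ## Definitions -/

/-- `G` is maximal `H`-free: `G` contains no copy of `H` (as a subgraph), but adding any edge
between two distinct non-adjacent vertices of `G` creates a copy of `H`. -/
def MaximalFree {W V : Type} (H : SimpleGraph W) (G : SimpleGraph V) : Prop :=
  ¬ H.IsContained G ∧ ∀ u v : V, u ≠ v → ¬ G.Adj u v → H.IsContained (G ⊔ edge u v)

/-- The VC-dimension of a graph: the VC-dimension of the set system of its neighbourhoods. -/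
noncomputable def vcGraph {n : ℕ} (G : SimpleGraph (Fin n)) : ℕ := by
  classical
  exact (Finset.univ.image (fun v => G.neighborFinset v)).vcDim

/-- The minimum degree of a finite graph. -/
noncomputable def minDeg {n : ℕ} (G : SimpleGraph (Fin n)) : ℕ := by
  classical
  exact G.minDegree

/-- `G` is a blowup of `F`: the vertices of `G` are distributed into nonempty classes indexed by
the vertices of `F`, and two vertices of `G` are adjacent iff their classes are adjacent in `F`
(so that every class is independent). -/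
def IsBlowup {V U : Type} (G : SimpleGraph V) (F : SimpleGraph U) : Prop :=
  ∃ f : V → U, Function.Surjective f ∧ ∀ a b, G.Adj a b ↔ F.Adj (f a) (f b)

/-- Minimum degree at least `α n` forces bounded VC-dimension for maximal `H`-free graphs. -/
def VCBounded {W : Type} (H : SimpleGraph W) (α : ℝ) : Prop :=
  ∃ C : ℕ, ∀ (n : ℕ) (G : SimpleGraph (Fin n)),
    MaximalFree H G → α * n ≤ minDeg G → vcGraph G ≤ C

/-- Minimum degree at least `α n` forces maximal `H`-free graphs to be blowups of graphs on a
bounded number of vertices. -/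
def BBounded {W : Type} (H : SimpleGraph W) (α : ℝ) : Prop :=
  ∃ C : ℕ, ∀ (n : ℕ) (G : SimpleGraph (Fin n)),
    MaximalFree H G → α * n ≤ minDeg G →
      ∃ m : ℕ, m ≤ C ∧ ∃ F : SimpleGraph (Fin m), IsBlowup G F

/-- The VC-dimension threshold `δ_VC(H)`. -/
noncomputable def deltaVC {W : Type} (H : SimpleGraph W) : ℝ :=
  sInf {α : ℝ | 0 ≤ α ∧ VCBounded H α}

/-- The blowup threshold `δ_B(H)`. -/
noncomputable def deltaB {W : Type} (H : SimpleGraph W) : ℝ :=
  sInf {α : ℝ | 0 ≤ α ∧ BBounded H α}

/-- The wheel with four spokes, i.e. `K_{1,2,2}`: the complete graph on `{0,1,2,3,4}` minus the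
two disjoint edges `13` and `24`. The hub is `0`, the rim is the 4-cycle `1 2 3 4`. -/
def W4 : SimpleGraph (Fin 5) where
  Adj i j := i ≠ j ∧ ¬ (i = 1 ∧ j = 3) ∧ ¬ (i = 3 ∧ j = 1) ∧ ¬ (i = 2 ∧ j = 4) ∧ ¬ (i = 4 ∧ j = 2)
  symm := ⟨by decide⟩
  loopless := ⟨by decide⟩

instance : DecidableRel W4.Adj := fun i j => by unfold W4; infer_instance

/-! ## Copies of `W4` -/

section Basic

variable {V : Type}

lemma contains_of_adj (G : SimpleGraph V) {v y z p q : V} (hyz : y ≠ z) (hpq : p ≠ q)
    (vy : G.Adj v y) (vz : G.Adj v z) (vp : G.Adj v p) (vq : G.Adj v q)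
    (yp : G.Adj y p) (yq : G.Adj y q) (zp : G.Adj z p) (zq : G.Adj z q) :
    W4.IsContained G := by
  have hinj : Function.Injective (![v, y, p, z, q] : Fin 5 → V) := by
    intro i j hij
    fin_cases i <;> fin_cases j <;> simp at hij ⊢ <;>
      first
        | exact absurd hij vy.ne | exact absurd hij vz.ne | exact absurd hij vp.ne
        | exact absurd hij vq.ne | exact absurd hij yp.ne | exact absurd hij yq.ne
        | exact absurd hij zp.ne | exact absurd hij zq.ne
        | exact absurd hij.symm vy.ne | exact absurd hij.symm vz.ne | exact absurd hij.symm vp.ne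
        | exact absurd hij.symm vq.ne | exact absurd hij.symm yp.ne | exact absurd hij.symm yq.ne
        | exact absurd hij.symm zp.ne | exact absurd hij.symm zq.ne
        | exact absurd hij hyz | exact absurd hij.symm hyz
        | exact absurd hij hpq | exact absurd hij.symm hpq
  refine ⟨⟨⟨![v, y, p, z, q], ?_⟩, hinj⟩⟩
  intro i j hij
  fin_cases i <;> fin_cases j <;> simp [W4] at hij ⊢ <;>
    first
      | assumption
      | exact vy.symm | exact vz.symm | exact vp.symm | exact vq.symm
      | exact yp.symm | exact yq.symm | exact zp.symm | exact zq.symm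

lemma exists_mono (χ : Fin 5 → Bool) :
    ∃ i j k : Fin 5, j ≠ k ∧ χ j = χ i ∧ χ k = χ i ∧ W4.Adj i j ∧ W4.Adj i k := by
  revert χ
  decide

/-- A graph with a two-colouring in which each vertex has at most one neighbour of its own
colour is `W4`-free. -/
lemma free_of_coloring (G : SimpleGraph V) (c : V → Bool)
    (h : ∀ v w w', c w = c v → c w' = c v → G.Adj v w → G.Adj v w' → w = w') :
    ¬ W4.IsContained G := by
  rintro ⟨f⟩
  obtain ⟨i, j, k, hjk, hj, hk, hij, hik⟩ := exists_mono (fun i => c (f i))
  have := h (f i) (f j) (f k) hj hk (f.toHom.map_adj hij) (f.toHom.map_adj hik)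
  exact hjk (f.injective this)

end Basic

/-! ## Counting lemmas for `W4`-free graphs -/

section Structure

variable {V : Type} [Fintype V] [DecidableEq V] (G : SimpleGraph V) [DecidableRel G.Adj]

/-- In a `W4`-free graph, a vertex and two of its neighbours have at most one common neighbour. -/
lemma card_triple_le (hG : ¬ W4.IsContained G) {v y z : V} (vy : G.Adj v y) (vz : G.Adj v z)
    (hyz : y ≠ z) :
    (G.neighborFinset v ∩ G.neighborFinset y ∩ G.neighborFinset z).card ≤ 1 := by
  rw [Finset.card_le_one]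
  intro p hp q hq
  by_contra hpq
  simp only [Finset.mem_inter, mem_neighborFinset] at hp hq
  exact hG (contains_of_adj G hyz hpq vy vz hp.1.1 hq.1.1 hp.1.2 hq.1.2 hp.2 hq.2)

lemma card_add_le (A B C : Finset V) :
    A.card + B.card + C.card ≤
      Fintype.card V + (A ∩ B).card + (B ∩ C).card + (A ∩ C).card := by
  have h1 := Finset.card_union_add_card_inter A B
  have h2 := Finset.card_union_add_card_inter (A ∪ B) C
  have h3 : ((A ∪ B) ∩ C).card ≤ (A ∩ C).card + (B ∩ C).card := by
    rw [Finset.union_inter_distrib_right]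
    exact Finset.card_union_le _ _
  have h4 : ((A ∪ B) ∪ C).card ≤ Fintype.card V := Finset.card_le_univ _
  omega

/-- An edge of large codegree in a `W4`-free graph of large minimum degree yields two large
disjoint sets with almost all edges between them. -/
lemma dense_pair_of_codegree (hG : ¬ W4.IsContained G) (hn : 100000 ≤ Fintype.card V)
    (hd : ∀ v, 99 * Fintype.card V ≤ 200 * G.degree v) {x y : V} (hxy : G.Adj x y)
    (hc : 97 * Fintype.card V ≤ 600 * (G.neighborFinset x ∩ G.neighborFinset y).card) :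
    ∃ W Z : Finset V, Disjoint W Z ∧ 95 * Fintype.card V ≤ 200 * W.card ∧
      95 * Fintype.card V ≤ 200 * Z.card ∧
      ∀ w ∈ W, 200 * (Z \ G.neighborFinset w).card ≤ 7 * Fintype.card V := by
  set W := G.neighborFinset x ∩ G.neighborFinset y with hW
  set S := G.neighborFinset x ∪ G.neighborFinset y with hS
  set S' := S \ {x, y} with hS'
  set Z := Sᶜ with hZ
  -- every vertex of `S'` has at most one neighbour in `W`
  have h1 : ∀ u ∈ S', (W.filter (fun w => G.Adj w u)).card ≤ 1 := by
    intro u hu
    simp only [hS', hS, mem_sdiff, mem_union, mem_neighborFinset, mem_insert, mem_singleton,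
      not_or] at hu
    obtain ⟨hu, hux, huy⟩ := hu
    rcases hu with hu | hu
    · refine le_trans (card_le_card ?_) (card_triple_le G hG hxy hu (Ne.symm huy))
      intro w hw
      simp only [hW, mem_filter, mem_inter, mem_neighborFinset] at hw ⊢
      exact ⟨hw.1, hw.2.symm⟩
    · refine le_trans (card_le_card ?_) (card_triple_le G hG hxy.symm hu (Ne.symm hux))
      intro w hw
      simp only [hW, mem_filter, mem_inter, mem_neighborFinset] at hw ⊢
      exact ⟨⟨hw.1.2, hw.1.1⟩, hw.2.symm⟩
  -- double counting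
  have h2 : ∑ w ∈ W, (S'.filter (fun u => G.Adj w u)).card ≤ Fintype.card V := by
    calc ∑ w ∈ W, (S'.filter (fun u => G.Adj w u)).card
        = ∑ u ∈ S', (W.filter (fun w => G.Adj w u)).card :=
          Finset.sum_card_bipartiteAbove_eq_sum_card_bipartiteBelow (fun w u => G.Adj w u)
      _ ≤ ∑ u ∈ S', 1 := Finset.sum_le_sum h1
      _ = S'.card := by simp
      _ ≤ Fintype.card V := Finset.card_le_univ _
  set W1 := W.filter (fun w => 200 * (S'.filter (fun u => G.Adj w u)).card ≤ Fintype.card V)
    with hW1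
  set W2 := W.filter (fun w => ¬ 200 * (S'.filter (fun u => G.Adj w u)).card ≤ Fintype.card V)
    with hW2
  have h3 : W1.card + W2.card = W.card := Finset.card_filter_add_card_filter_not _
  have h4 : W2.card < 200 := by
    by_contra hcon
    push Not at hcon
    have : W2.card * (Fintype.card V + 1) ≤ 200 * Fintype.card V := by
      calc W2.card * (Fintype.card V + 1) = ∑ w ∈ W2, (Fintype.card V + 1) := by simp
        _ ≤ ∑ w ∈ W2, 200 * (S'.filter (fun u => G.Adj w u)).card := by
            apply Finset.sum_le_sum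
            intro w hw
            have := (Finset.mem_filter.1 hw).2
            omega
        _ ≤ ∑ w ∈ W, 200 * (S'.filter (fun u => G.Adj w u)).card :=
            Finset.sum_le_sum_of_subset (Finset.filter_subset _ _)
        _ = 200 * ∑ w ∈ W, (S'.filter (fun u => G.Adj w u)).card := by rw [Finset.mul_sum]
        _ ≤ 200 * Fintype.card V := Nat.mul_le_mul_left _ h2
    nlinarith
  have h5 : ∀ w ∈ W1, 98 * Fintype.card V ≤ 200 * (Z ∩ G.neighborFinset w).card + 400 := by
    intro w hw
    have hw2 := (Finset.mem_filter.1 hw).2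
    have hsub : G.neighborFinset w ⊆
        (Z ∩ G.neighborFinset w) ∪ ({x, y} ∪ S'.filter (fun u => G.Adj w u)) := by
      intro u hu
      have hu' : G.Adj w u := by simpa using hu
      by_cases h : u ∈ S
      · by_cases h' : u ∈ ({x, y} : Finset V)
        · exact mem_union_right _ (mem_union_left _ h')
        · refine mem_union_right _ (mem_union_right _ ?_)
          rw [mem_filter]
          exact ⟨mem_sdiff.2 ⟨h, h'⟩, hu'⟩
      · exact mem_union_left _ (mem_inter.2 ⟨mem_compl.2 h, hu⟩)
    have hcard := Finset.card_le_card hsub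
    have e1 := Finset.card_union_le (Z ∩ G.neighborFinset w)
      ({x, y} ∪ S'.filter (fun u => G.Adj w u))
    have e2 := Finset.card_union_le ({x, y} : Finset V) (S'.filter (fun u => G.Adj w u))
    have e3 : ({x, y} : Finset V).card ≤ 2 := Finset.card_le_two
    have e4 := hd w
    rw [card_neighborFinset_eq_degree] at hcard
    omega
  have h6 : Z.card + S.card = Fintype.card V := by
    have := Finset.card_add_card_compl S
    rw [← hZ] at this
    omega
  have h7 : S.card + W.card = G.degree x + G.degree y := by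
    have := Finset.card_union_add_card_inter (G.neighborFinset x) (G.neighborFinset y)
    simpa using this
  have hdx := hd x
  have hdy := hd y
  have h8 : 0 < W1.card := by omega
  obtain ⟨w0, hw0⟩ := Finset.card_pos.1 h8
  have h9 := h5 w0 hw0
  have h10 : (Z ∩ G.neighborFinset w0).card ≤ Z.card := Finset.card_le_card inter_subset_left
  have hWS : W ⊆ S := fun u hu => mem_union_left _ (mem_inter.1 hu).1
  have h11 : W.card ≤ S.card := Finset.card_le_card hWS
  refine ⟨W1, Z, ?_, ?_, ?_, ?_⟩
  · rw [Finset.disjoint_left]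
    intro u hu hu'
    exact (mem_compl.1 hu') (hWS (Finset.mem_filter.1 hu).1)
  · omega
  · omega
  · intro w hw
    have := h5 w hw
    have e : (Z \ G.neighborFinset w).card + (Z ∩ G.neighborFinset w).card = Z.card :=
      Finset.card_sdiff_add_card_inter _ _
    omega

/-- A `W4`-free graph of large minimum degree contains two large
disjoint sets with almost all edges between them. -/
lemma dense_pair (hG : ¬ W4.IsContained G) (hn : 100000 ≤ Fintype.card V)
    (hd : ∀ v, 99 * Fintype.card V ≤ 200 * G.degree v) :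
    ∃ W Z : Finset V, Disjoint W Z ∧ 95 * Fintype.card V ≤ 200 * W.card ∧
      95 * Fintype.card V ≤ 200 * Z.card ∧
      ∀ w ∈ W, 200 * (Z \ G.neighborFinset w).card ≤ 7 * Fintype.card V := by
  by_cases htri : ∃ x y z, G.Adj x y ∧ G.Adj y z ∧ G.Adj x z
  · obtain ⟨x, y, z, hxy, hyz, hxz⟩ := htri
    have h := card_add_le (G.neighborFinset x) (G.neighborFinset y) (G.neighborFinset z)
    simp only [card_neighborFinset_eq_degree] at h
    have hx := hd x
    have hy := hd y
    have hz := hd z
    by_cases c1 : 97 * Fintype.card V ≤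
        600 * (G.neighborFinset x ∩ G.neighborFinset y).card
    · exact dense_pair_of_codegree G hG hn hd hxy c1
    by_cases c2 : 97 * Fintype.card V ≤
        600 * (G.neighborFinset y ∩ G.neighborFinset z).card
    · exact dense_pair_of_codegree G hG hn hd hyz c2
    by_cases c3 : 97 * Fintype.card V ≤
        600 * (G.neighborFinset x ∩ G.neighborFinset z).card
    · exact dense_pair_of_codegree G hG hn hd hxz c3
    omega
  · have hV : 0 < Fintype.card V := by omega
    obtain ⟨x⟩ := Fintype.card_pos_iff.1 hV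
    have hx := hd x
    have hx0 : 0 < G.degree x := by omega
    obtain ⟨y, hxy⟩ := (G.degree_pos_iff_exists_adj x).1 hx0
    have hy := hd y
    have hdisj : Disjoint (G.neighborFinset x) (G.neighborFinset y) := by
      rw [Finset.disjoint_left]
      intro u hu hu'
      simp only [mem_neighborFinset] at hu hu'
      exact htri ⟨x, y, u, hxy, hu', hu⟩
    refine ⟨G.neighborFinset x, G.neighborFinset y, hdisj, ?_, ?_, ?_⟩
    · rw [card_neighborFinset_eq_degree]; omega
    · rw [card_neighborFinset_eq_degree]; omega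
    · intro w hw
      have hxw : G.Adj x w := by simpa using hw
      have hw' := hd w
      have hsub : G.neighborFinset w ⊆ (G.neighborFinset y ∩ G.neighborFinset w) ∪
          (G.neighborFinset x ∪ G.neighborFinset y)ᶜ := by
        intro u hu
        have hwu : G.Adj w u := by simpa using hu
        have hxu : ¬ G.Adj x u := fun h => htri ⟨x, w, u, hxw, hwu, h⟩
        by_cases hyu : G.Adj y u
        · exact mem_union_left _ (mem_inter.2 ⟨by simpa using hyu, hu⟩)
        · refine mem_union_right _ ?_
          simp [hxu, hyu]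
      have hcard := Finset.card_le_card hsub
      have e1 := Finset.card_union_le (G.neighborFinset y ∩ G.neighborFinset w)
        (G.neighborFinset x ∪ G.neighborFinset y)ᶜ
      have e2 : ((G.neighborFinset x ∪ G.neighborFinset y)ᶜ).card +
          (G.degree x + G.degree y) = Fintype.card V := by
        have h1 := Finset.card_union_of_disjoint hdisj
        have h2 := Finset.card_add_card_compl (G.neighborFinset x ∪ G.neighborFinset y)
        simp only [card_neighborFinset_eq_degree] at h1
        omega
      have e3 : (G.neighborFinset y \ G.neighborFinset w).card +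
          (G.neighborFinset y ∩ G.neighborFinset w).card = G.degree y := by
        rw [Finset.card_sdiff_add_card_inter, card_neighborFinset_eq_degree]
      rw [card_neighborFinset_eq_degree] at hcard
      omega

/-- A `W4`-free graph of large minimum degree has a two-colouring in which each vertex has at
most one neighbour of its own colour. -/
theorem exists_coloring (hG : ¬ W4.IsContained G) (hn : 100000 ≤ Fintype.card V)
    (hd : ∀ v, 99 * Fintype.card V ≤ 200 * G.degree v) :
    ∃ c : V → Bool, ∀ v w w', c w = c v → c w' = c v → G.Adj v w → G.Adj v w' → w = w' := by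
  obtain ⟨W, Z, hdisj, hW, hZ, hWZ⟩ := dense_pair G hG hn hd
  set n := Fintype.card V with hn'
  have hWZc : (W ∪ Z).card = W.card + Z.card := Finset.card_union_of_disjoint hdisj
  have hcompl : ((W ∪ Z)ᶜ).card + (W.card + Z.card) = n := by
    have h2 := Finset.card_add_card_compl (W ∪ Z)
    omega
  -- degree splitting
  have hdeg : ∀ u, G.degree u ≤ (W ∩ G.neighborFinset u).card + (Z ∩ G.neighborFinset u).card
      + ((W ∪ Z)ᶜ).card := by
    intro u
    have hsub : G.neighborFinset u ⊆
        ((W ∩ G.neighborFinset u) ∪ (Z ∩ G.neighborFinset u)) ∪ (W ∪ Z)ᶜ := by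
      intro t ht
      by_cases h1 : t ∈ W
      · exact mem_union_left _ (mem_union_left _ (mem_inter.2 ⟨h1, ht⟩))
      · by_cases h2 : t ∈ Z
        · exact mem_union_left _ (mem_union_right _ (mem_inter.2 ⟨h2, ht⟩))
        · refine mem_union_right _ ?_
          simp [h1, h2]
    have h1 := Finset.card_le_card hsub
    have h2 := Finset.card_union_le ((W ∩ G.neighborFinset u) ∪ (Z ∩ G.neighborFinset u)) (W ∪ Z)ᶜ
    have h3 := Finset.card_union_le (W ∩ G.neighborFinset u) (Z ∩ G.neighborFinset u)
    rw [card_neighborFinset_eq_degree] at h1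
    omega
  -- a vertex with two neighbours in `W` has few neighbours in `Z`
  have hfew : ∀ u, 2 ≤ (W ∩ G.neighborFinset u).card →
      200 * (Z ∩ G.neighborFinset u).card ≤ 14 * n + 200 := by
    intro u hu
    obtain ⟨w1, hw1, w2, hw2, hne⟩ := Finset.one_lt_card.1 hu
    simp only [mem_inter, mem_neighborFinset] at hw1 hw2
    have h1 := card_triple_le G hG hw1.2 hw2.2 hne
    have hsub : Z ∩ G.neighborFinset u ⊆
        (G.neighborFinset u ∩ G.neighborFinset w1 ∩ G.neighborFinset w2) ∪
          ((Z \ G.neighborFinset w1) ∪ (Z \ G.neighborFinset w2)) := by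
      intro t ht
      rw [mem_inter] at ht
      by_cases a1 : t ∈ G.neighborFinset w1
      · by_cases a2 : t ∈ G.neighborFinset w2
        · exact mem_union_left _ (mem_inter.2 ⟨mem_inter.2 ⟨ht.2, a1⟩, a2⟩)
        · exact mem_union_right _ (mem_union_right _ (mem_sdiff.2 ⟨ht.1, a2⟩))
      · exact mem_union_right _ (mem_union_left _ (mem_sdiff.2 ⟨ht.1, a1⟩))
    have h2 := Finset.card_le_card hsub
    have h3 := Finset.card_union_le
      (G.neighborFinset u ∩ G.neighborFinset w1 ∩ G.neighborFinset w2)
      ((Z \ G.neighborFinset w1) ∪ (Z \ G.neighborFinset w2))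
    have h4 := Finset.card_union_le (Z \ G.neighborFinset w1) (Z \ G.neighborFinset w2)
    have h5 := hWZ w1 hw1.1
    have h6 := hWZ w2 hw2.1
    omega
  -- three vertices missing few vertices of a large set have two common neighbours in it
  have hthree : ∀ (T : Finset V) (v w w' : V), w ≠ w' → G.Adj v w → G.Adj v w' →
      95 * n ≤ 200 * T.card → (T \ G.neighborFinset v).card * 200 ≤ 20 * n + 200 →
      (T \ G.neighborFinset w).card * 200 ≤ 20 * n + 200 →
      (T \ G.neighborFinset w').card * 200 ≤ 20 * n + 200 → False := by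
    intro T v w w' hne hvw hvw' hT h1 h2 h3
    have h := card_triple_le G hG hvw hvw' hne
    have hsub : T ⊆ (G.neighborFinset v ∩ G.neighborFinset w ∩ G.neighborFinset w') ∪
        ((T \ G.neighborFinset v) ∪ ((T \ G.neighborFinset w) ∪ (T \ G.neighborFinset w'))) := by
      intro t ht
      simp only [mem_union, mem_inter, mem_sdiff]
      tauto
    have e1 := Finset.card_le_card hsub
    have e2 := Finset.card_union_le
      (G.neighborFinset v ∩ G.neighborFinset w ∩ G.neighborFinset w')
      ((T \ G.neighborFinset v) ∪ ((T \ G.neighborFinset w) ∪ (T \ G.neighborFinset w')))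
    have e3 := Finset.card_union_le (T \ G.neighborFinset v)
      ((T \ G.neighborFinset w) ∪ (T \ G.neighborFinset w'))
    have e4 := Finset.card_union_le (T \ G.neighborFinset w) (T \ G.neighborFinset w')
    omega
  have hA : ∀ u, 2 ≤ (W ∩ G.neighborFinset u).card →
      (W \ G.neighborFinset u).card * 200 ≤ 20 * n + 200 := by
    intro u hu
    have h1 := hfew u hu
    have h2 := hdeg u
    have h3 := hd u
    have h4 : (W \ G.neighborFinset u).card + (W ∩ G.neighborFinset u).card = W.card :=
      Finset.card_sdiff_add_card_inter _ _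
    omega
  have hB : ∀ u, ¬ 2 ≤ (W ∩ G.neighborFinset u).card →
      (Z \ G.neighborFinset u).card * 200 ≤ 20 * n + 200 := by
    intro u hu
    have h2 := hdeg u
    have h3 := hd u
    have h4 : (Z \ G.neighborFinset u).card + (Z ∩ G.neighborFinset u).card = Z.card :=
      Finset.card_sdiff_add_card_inter _ _
    omega
  refine ⟨fun u => decide (2 ≤ (W ∩ G.neighborFinset u).card), ?_⟩
  intro v w w' hw hw' hvw hvw'
  by_contra hne
  simp only [decide_eq_decide] at hw hw'
  by_cases hv : 2 ≤ (W ∩ G.neighborFinset v).card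
  · exact hthree W v w w' hne hvw hvw' hW (hA v hv) (hA w (hw.2 hv)) (hA w' (hw'.2 hv))
  · exact hthree Z v w w' hne hvw hvw' hZ (hB v hv) (hB w (fun h => hv (hw.1 h)))
      (hB w' (fun h => hv (hw'.1 h)))

end Structure

/-! ## The upper bound for `δ_VC` -/

lemma vcGraph_le {n : ℕ} (G : SimpleGraph (Fin n)) : vcGraph G ≤ n := by
  classical
  unfold vcGraph Finset.vcDim
  refine Finset.sup_le fun s _ => ?_
  simpa using Finset.card_le_univ s

/-- Maximal `W4`-free graphs with a good two-colouring have VC-dimension at most four. -/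
lemma vcGraph_le_four {n : ℕ} (G : SimpleGraph (Fin n)) (hG : MaximalFree W4 G)
    (c : Fin n → Bool)
    (hc : ∀ v w w', c w = c v → c w' = c v → G.Adj v w → G.Adj v w' → w = w') :
    vcGraph G ≤ 4 := by
  classical
  -- vertices of different colours are adjacent
  have hcross : ∀ a b, c a ≠ c b → G.Adj a b := by
    intro a b hab
    by_contra hnot
    have hne : a ≠ b := fun h => hab (by rw [h])
    refine free_of_coloring (G ⊔ edge a b) c ?_ (hG.2 a b hne hnot)
    intro v w w' hw hw' h1 h2
    have key : ∀ t, c t = c v → (G ⊔ edge a b).Adj v t → G.Adj v t := by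
      intro t ht h
      rw [SimpleGraph.sup_adj, edge_adj] at h
      rcases h with h | ⟨(⟨e1, e2⟩ | ⟨e1, e2⟩), _⟩
      · exact h
      · rw [e1, e2] at ht; exact absurd ht.symm hab
      · rw [e1, e2] at ht; exact absurd ht hab
    exact hc v w w' hw hw' (key w hw h1) (key w' hw' h2)
  unfold vcGraph Finset.vcDim
  refine Finset.sup_le fun s hs => ?_
  rw [mem_shatterer] at hs
  by_contra hcard
  push Not at hcard
  -- one colour class contains three elements of `s`
  have hsplit := Finset.card_filter_add_card_filter_not (s := s) (fun v => c v = true)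
  obtain ⟨χ, hχ⟩ : ∃ χ : Bool, 2 < (s.filter (fun v => c v = χ)).card := by
    by_contra hcon
    push Not at hcon
    have h1 := hcon true
    have h2 := hcon false
    have h3 : s.filter (fun v => ¬ c v = true) = s.filter (fun v => c v = false) := by
      ext v; simp
    rw [h3] at hsplit
    omega
  obtain ⟨x, y, z, hx, hy, hz, hxy, hxz, hyz⟩ := Finset.two_lt_card_iff.1 hχ
  rw [mem_filter] at hx hy hz
  obtain ⟨u, hu, hsu⟩ := hs (t := {x, y}) (by
    intro t ht
    rcases Finset.mem_insert.1 ht with rfl | ht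
    · exact hx.1
    · rw [Finset.mem_singleton.1 ht]; exact hy.1)
  obtain ⟨v, -, rfl⟩ := Finset.mem_image.1 hu
  have hvx : G.Adj v x := by
    have : x ∈ s ∩ G.neighborFinset v := by rw [hsu]; simp
    simpa using (mem_inter.1 this).2
  have hvy : G.Adj v y := by
    have : y ∈ s ∩ G.neighborFinset v := by rw [hsu]; simp
    simpa using (mem_inter.1 this).2
  have hvz : ¬ G.Adj v z := by
    intro h
    have : z ∈ s ∩ G.neighborFinset v := mem_inter.2 ⟨hz.1, by simpa using h⟩
    rw [hsu] at this
    rcases Finset.mem_insert.1 this with h | h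
    · exact hxz h.symm
    · exact hyz (Finset.mem_singleton.1 h).symm
  by_cases hv : c v = χ
  · exact hxy (hc v x y (by rw [hx.2, hv]) (by rw [hy.2, hv]) hvx hvy)
  · exact hvz (hcross v z (by rw [hz.2]; exact hv))

theorem vcBounded_W4 : VCBounded W4 (99 / 200) := by
  classical
  refine ⟨100000, fun n G hG hdeg => ?_⟩
  by_cases hn : n < 100000
  · exact (vcGraph_le G).trans hn.le
  push Not at hn
  have hd : ∀ v, 99 * Fintype.card (Fin n) ≤ 200 * G.degree v := by
    intro v
    have h1 : minDeg G ≤ G.degree v := by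
      unfold minDeg
      convert G.minDegree_le_degree v
    have h2 : (99 / 200 : ℝ) * n ≤ G.degree v := hdeg.trans (by exact_mod_cast h1)
    rw [Fintype.card_fin]
    have h3 : (99 * n : ℝ) ≤ 200 * G.degree v := by linarith
    exact_mod_cast h3
  obtain ⟨c, hc⟩ := exists_coloring G hG.1 (by simpa using hn) hd
  exact (vcGraph_le_four G hG c hc).trans (by norm_num)

/-! ## The lower bound for `δ_B` -/

/-- The complete bipartite graph `K_{2m,2m}` on `Fin (4m)` (with parts `{0,…,2m-1}` and
`{2m,…,4m-1}`) together with the perfect matchings `{2i, 2i+1}` in both parts. -/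
def KM (m : ℕ) : SimpleGraph (Fin (4 * m)) where
  Adj i j := i ≠ j ∧ (((i : ℕ) < 2 * m ↔ ¬ (j : ℕ) < 2 * m) ∨ (i : ℕ) / 2 = (j : ℕ) / 2)
  symm := ⟨by
    rintro i j ⟨h1, h2⟩
    refine ⟨h1.symm, ?_⟩
    rcases h2 with h2 | h2
    · left; tauto
    · right; exact h2.symm⟩
  loopless := ⟨by
    rintro i ⟨h1, _⟩
    exact h1 rfl⟩

lemma KM_free (m : ℕ) : ¬ W4.IsContained (KM m) := by
  refine free_of_coloring (KM m) (fun i => decide ((i : ℕ) < 2 * m)) ?_
  intro v w w' hw hw' h1 h2
  simp only [decide_eq_decide] at hw hw'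
  obtain ⟨n1, h1⟩ := h1
  obtain ⟨n2, h2⟩ := h2
  have k1 : (v : ℕ) / 2 = (w : ℕ) / 2 := by
    rcases h1 with h1 | h1
    · tauto
    · exact h1
  have k2 : (v : ℕ) / 2 = (w' : ℕ) / 2 := by
    rcases h2 with h2 | h2
    · tauto
    · exact h2
  have n1' : (v : ℕ) ≠ w := fun h => n1 (Fin.ext h)
  have n2' : (v : ℕ) ≠ w' := fun h => n2 (Fin.ext h)
  apply Fin.ext
  omega

/-- The partner of a vertex in the perfect matchings. -/
lemma exists_partner {m : ℕ} (u : Fin (4 * m)) :
    ∃ u' : Fin (4 * m), u' ≠ u ∧ (u' : ℕ) / 2 = (u : ℕ) / 2 := by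
  have hu := u.isLt
  by_cases h : (u : ℕ) % 2 = 0
  · refine ⟨⟨u + 1, by omega⟩, ?_, ?_⟩
    · intro h'
      have := congrArg Fin.val h'
      simp at this
    · show ((u : ℕ) + 1) / 2 = (u : ℕ) / 2
      omega
  · refine ⟨⟨u - 1, by omega⟩, ?_, ?_⟩
    · intro h'
      have := congrArg Fin.val h'
      simp at this
      omega
    · show ((u : ℕ) - 1) / 2 = (u : ℕ) / 2
      omega

lemma KM_maximal {m : ℕ} : MaximalFree W4 (KM m) := by
  refine ⟨KM_free m, ?_⟩
  intro u v huv hnadj
  have hm : 0 < m := by
    have := u.isLt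
    omega
  obtain ⟨u', hu'1, hu'2⟩ := exists_partner u
  have hnadj' : ¬ (((u : ℕ) < 2 * m ↔ ¬ (v : ℕ) < 2 * m) ∨ (u : ℕ) / 2 = (v : ℕ) / 2) :=
    fun h => hnadj ⟨huv, h⟩
  push Not at hnadj'
  obtain ⟨hside, hdiv⟩ := hnadj'
  -- two vertices on the other side
  obtain ⟨p, q, hpq, hp, hq⟩ : ∃ p q : Fin (4 * m), p ≠ q ∧
      ((p : ℕ) < 2 * m ↔ ¬ (u : ℕ) < 2 * m) ∧ ((q : ℕ) < 2 * m ↔ ¬ (u : ℕ) < 2 * m) := by
    by_cases h : (u : ℕ) < 2 * m
    · refine ⟨⟨2 * m, by omega⟩, ⟨2 * m + 1, by omega⟩, ?_, ?_, ?_⟩
      · intro h'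
        have := congrArg Fin.val h'
        simp at this
      · simp [h]
      · simp [h]
    · refine ⟨⟨0, by omega⟩, ⟨1, by omega⟩, ?_, ?_, ?_⟩
      · intro h'
        have := congrArg Fin.val h'
        simp at this
      · simp only [h]
        simp
        omega
      · simp only [h]
        simp
        omega
  have side_u' : ((u' : ℕ) < 2 * m ↔ (u : ℕ) < 2 * m) := by omega
  have side_v : ((v : ℕ) < 2 * m ↔ (u : ℕ) < 2 * m) := by omega
  have cross : ∀ a b : Fin (4 * m), ((a : ℕ) < 2 * m ↔ ¬ (b : ℕ) < 2 * m) →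
      (KM m ⊔ edge u v).Adj a b := by
    intro a b hab
    rw [SimpleGraph.sup_adj]
    left
    refine ⟨?_, Or.inl hab⟩
    rintro rfl
    tauto
  have hu'v : u' ≠ v := by
    rintro rfl
    exact hdiv hu'2.symm
  refine contains_of_adj (KM m ⊔ edge u v) (v := u) (y := u') (z := v) (p := p) (q := q)
    hu'v hpq ?_ ?_ ?_ ?_ ?_ ?_ ?_ ?_
  · rw [SimpleGraph.sup_adj]
    left
    exact ⟨hu'1.symm, Or.inr hu'2.symm⟩
  · rw [SimpleGraph.sup_adj]
    right
    rw [edge_adj]
    exact ⟨Or.inl ⟨rfl, rfl⟩, huv⟩
  all_goals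
    apply cross
    tauto

lemma KM_minDeg {m : ℕ} (hm : 0 < m) : 2 * m ≤ minDeg (KM m) := by
  classical
  unfold minDeg
  have : Nonempty (Fin (4 * m)) := ⟨⟨0, by omega⟩⟩
  refine le_minDegree_of_forall_le_degree _ _ ?_
  intro v
  rw [← card_neighborFinset_eq_degree]
  by_cases hv : (v : ℕ) < 2 * m
  · have hinj : Function.Injective
        (fun i : Fin (2 * m) => (⟨2 * m + i, by omega⟩ : Fin (4 * m))) := by
      intro i j hij
      have := congrArg Fin.val hij
      simp at this
      exact Fin.ext this
    have h1 : ((Finset.univ : Finset (Fin (2 * m))).image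
        (fun i : Fin (2 * m) => (⟨2 * m + i, by omega⟩ : Fin (4 * m)))).card = 2 * m := by
      rw [Finset.card_image_of_injective _ hinj]
      simp
    rw [← h1]
    apply Finset.card_le_card
    intro x hx
    obtain ⟨i, -, rfl⟩ := Finset.mem_image.1 hx
    rw [mem_neighborFinset]
    refine ⟨?_, Or.inl ?_⟩
    · intro h
      rw [h] at hv
      simp at hv
    · simp [hv]
  · have hinj : Function.Injective
        (fun i : Fin (2 * m) => (⟨i, by omega⟩ : Fin (4 * m))) := by
      intro i j hij
      have := congrArg Fin.val hij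
      simp at this
      exact Fin.ext this
    have h1 : ((Finset.univ : Finset (Fin (2 * m))).image
        (fun i : Fin (2 * m) => (⟨i, by omega⟩ : Fin (4 * m)))).card = 2 * m := by
      rw [Finset.card_image_of_injective _ hinj]
      simp
    rw [← h1]
    apply Finset.card_le_card
    intro x hx
    obtain ⟨i, -, rfl⟩ := Finset.mem_image.1 hx
    rw [mem_neighborFinset]
    refine ⟨?_, Or.inl ?_⟩
    · intro h
      rw [h] at hv
      simp at hv
    · simp [hv]

/-- A blowup map on `KM m` is injective. -/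
lemma KM_blowup {m k : ℕ} (F : SimpleGraph (Fin k)) (h : IsBlowup (KM m) F) : 4 * m ≤ k := by
  obtain ⟨f, -, hf⟩ := h
  have hinj : Function.Injective f := by
    intro u v huv
    by_contra hne
    have hN : ∀ w, (KM m).Adj u w ↔ (KM m).Adj v w := by
      intro w
      rw [hf, hf, huv]
    obtain ⟨u', hu'1, hu'2⟩ := exists_partner u
    have h1 : (KM m).Adj u u' := ⟨hu'1.symm, Or.inr hu'2.symm⟩
    have h2 : (KM m).Adj v u' := (hN u').1 h1
    have h3 : ¬ (KM m).Adj u v := by
      intro h
      exact (KM m).irrefl ((hN v).1 h)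
    obtain ⟨h4, h5⟩ := h2
    have h6 : ¬ (((u : ℕ) < 2 * m ↔ ¬ (v : ℕ) < 2 * m) ∨ (u : ℕ) / 2 = (v : ℕ) / 2) :=
      fun h => h3 ⟨hne, h⟩
    push Not at h6
    obtain ⟨h7, h8⟩ := h6
    rcases h5 with h5 | h5
    · have side_u' : ((u' : ℕ) < 2 * m ↔ (u : ℕ) < 2 * m) := by omega
      omega
    · exact h8 (by omega)
  simpa using Fintype.card_le_of_injective f hinj

lemma not_bBounded {α : ℝ} (hα : α ≤ 1 / 2) : ¬ BBounded W4 α := by
  rintro ⟨C, hC⟩
  obtain ⟨k, hk, F, hF⟩ := hC (4 * (C + 1)) (KM (C + 1)) KM_maximal (by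
    have h1 : 2 * (C + 1) ≤ minDeg (KM (C + 1)) := KM_minDeg (by omega)
    have h2 : ((2 * (C + 1) : ℕ) : ℝ) ≤ minDeg (KM (C + 1)) := by exact_mod_cast h1
    push_cast at h2 ⊢
    have h3 : (0 : ℝ) ≤ C := Nat.cast_nonneg C
    nlinarith)
  have := KM_blowup F hF
  omega

lemma bBounded_one {W : Type} (H : SimpleGraph W) : BBounded H 1 := by
  classical
  refine ⟨0, fun n G _ hdeg => ?_⟩
  have hn : n = 0 := by
    by_contra hn
    have : Nonempty (Fin n) := ⟨⟨0, by omega⟩⟩
    have h1 : minDeg G < n := by
      unfold minDeg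
      have := G.minDegree_lt_card
      rw [Fintype.card_fin] at this
      convert this
    have h2 : (n : ℝ) ≤ minDeg G := by linarith
    have h3 : n ≤ minDeg G := by exact_mod_cast h2
    omega
  subst hn
  exact ⟨0, le_rfl, G, id, Function.surjective_id, fun a b => Iff.rfl⟩

theorem deltaVC_W4_le : deltaVC W4 ≤ 99 / 200 :=
  csInf_le ⟨0, fun _ h => h.1⟩ ⟨by norm_num, vcBounded_W4⟩

theorem le_deltaB_W4 : 1 / 2 ≤ deltaB W4 := by
  refine le_csInf ⟨1, by norm_num, bBounded_one W4⟩ ?_
  rintro α ⟨-, hα⟩
  by_contra h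
  exact not_bBounded (not_le.1 h).le hα

/-- **Main result.** There is a graph `H` with `δ_VC(H) < δ_B(H)`: the wheel `W4 = K_{1,2,2}`
has `δ_VC(W4) ≤ 99/200` and `δ_B(W4) ≥ 1/2`. -/
theorem result : deltaVC W4 ≤ 99 / 200 ∧ 1 / 2 ≤ deltaB W4 :=
  ⟨deltaVC_W4_le, le_deltaB_W4⟩

end Pool.Agent.Results.MP_0aef5d_co.WheelFour
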